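import Pool.Agent.H47.SQ.Targets

/-!
The second moment: board `ppz_modules`, row `NSS` (MP_c62aed_lc).
-/

set_option autoImplicit false

namespace Pool.Agent.H4.SR

open Finset
open Pool.Agent.H47.SQ (sav guess)
open Pool.Agent.H47.SR

theorem choose_le_exp {n w : ℕ} (hw : w ≤ n) {y : ℝ} (hy : 0 < y) :
    (n.choose w : ℝ) ≤ Real.exp (n * y - w * Real.log y) := by
  have h1 : (n.choose w : ℝ) * y ^ w ≤ (y + 1) ^ n := by
    rw [add_pow]
    refine le_trans (le_of_eq ?_) (Finset.single_le_sum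
      (f := fun j => y ^ j * 1 ^ (n - j) * (n.choose j : ℝ)) (fun j _ => by positivity)
      (Finset.mem_range.2 (Nat.lt_succ_of_le hw)))
    simp only [one_pow, mul_one]
    ring
  have h2 : (y + 1) ^ n ≤ Real.exp (n * y) := by
    rw [mul_comm, Real.exp_mul, Real.rpow_natCast]
    exact pow_le_pow_left₀ (by positivity) (Real.add_one_le_exp y) n
  have h3 : Real.exp (n * y - w * Real.log y) = Real.exp (n * y) / y ^ w := by
    rw [Real.exp_sub, mul_comm (w : ℝ), Real.exp_mul (Real.log y), Real.exp_log hy,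
      Real.rpow_natCast]
  rw [h3, le_div_iff₀ (by positivity)]
  exact h1.trans h2

theorem exp_le_one_sub {x : ℝ} (h0 : 0 ≤ x) (h1 : x ≤ 1 / 2) : Real.exp (-(2 * x)) ≤ 1 - x := by
  rw [Real.exp_neg]
  have h2 : 2 * x + 1 ≤ Real.exp (2 * x) := Real.add_one_le_exp _
  rw [inv_le_comm₀ (Real.exp_pos _) (by linarith)]
  refine le_trans ?_ h2
  rw [inv_le_iff_one_le_mul₀ (by linarith)]
  nlinarith

theorem term2 {n k m w : ℕ} {c P g : ℝ} {D : ℝ} (hk : 8 ≤ k) (hn : 1 ≤ n)
    (hc0 : 0 ≤ c) (hc : c ≤ Real.exp (n / 100)) (hP : 0 ≤ P)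
    (hD : D = m / 2 ^ k) (hg : g = (1 - (1 / 2 : ℝ) ^ k) ^ m) {T : ℝ} (hT1 : T ≤ P)
    (hT2 : 8 / (k : ℝ) * n ≤ w → T ≤ P * g * Real.exp (4 * (1 - 8 / (k : ℝ)) ^ k * m / 2 ^ k))
    (hw : 8 / (k : ℝ) * n ≤ w) : c * T ≤ P * (1 + 2 ^ n * g) := by
  have hk0 : (8 : ℝ) ≤ k := by exact_mod_cast hk
  have hn0 : (1 : ℝ) ≤ n := by exact_mod_cast hn
  have hx0 : (0 : ℝ) ≤ (1 / 2) ^ k := by positivity
  have hx1 : (1 / 2 : ℝ) ^ k ≤ 1 / 2 := by
    calc (1 / 2 : ℝ) ^ k ≤ (1 / 2) ^ 1 := pow_le_pow_of_le_one (by norm_num) (by norm_num) (by omega)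
      _ = 1 / 2 := pow_one _
  have hDx : D = m * (1 / 2 : ℝ) ^ k := by
    rw [hD, one_div, inv_pow, div_eq_mul_inv]
  have hg0 : 0 ≤ g := by
    rw [hg]
    exact pow_nonneg (by linarith) _
  by_cases hDn : (n : ℝ) / 50 ≤ D
  · have hg1 : g ≤ Real.exp (-D) := by
      have e1 : Real.exp (-D) = Real.exp (-(1 / 2 : ℝ) ^ k) ^ m := by
        rw [← Real.exp_nat_mul, hDx]
        ring_nf
      rw [hg, e1]
      exact pow_le_pow_left₀ (by linarith) (Real.one_sub_le_exp_neg _) m
    have h1 : (1 - 8 / (k : ℝ)) ^ k ≤ 1 / 8 := by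
      refine (Real.one_sub_div_pow_le_exp_neg hk0).trans ?_
      rw [Real.exp_neg, one_div]
      refine inv_anti₀ (by norm_num) ?_
      have := Real.add_one_le_exp (8 : ℝ)
      linarith
    have hD0 : 0 ≤ D := by
      rw [hD]
      positivity
    have h2 : Real.exp (4 * (1 - 8 / (k : ℝ)) ^ k * m / 2 ^ k) ≤ Real.exp (D / 2) := by
      rw [Real.exp_le_exp, mul_div_assoc, ← hD]
      nlinarith
    have h3 : T ≤ P * Real.exp (-D) * Real.exp (D / 2) := by
      refine (hT2 hw).trans ?_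
      exact mul_le_mul (mul_le_mul_of_nonneg_left hg1 hP) h2 (by positivity) (by positivity)
    have h4 : c * T ≤ Real.exp (n / 100) * (P * Real.exp (-D) * Real.exp (D / 2)) :=
      (mul_le_mul_of_nonneg_left h3 hc0).trans (mul_le_mul_of_nonneg_right hc (by positivity))
    have h5 : Real.exp (n / 100) * (P * Real.exp (-D) * Real.exp (D / 2)) =
        P * Real.exp (n / 100 - D / 2) := by
      have : (n : ℝ) / 100 - D / 2 = n / 100 + (-D) + D / 2 := by ring
      rw [this, Real.exp_add, Real.exp_add]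
      ring
    have h6 : Real.exp ((n : ℝ) / 100 - D / 2) ≤ 1 := by
      rw [← Real.exp_zero, Real.exp_le_exp]
      linarith
    have h7 : 0 ≤ (2 : ℝ) ^ n * g := by positivity
    rw [h5] at h4
    refine h4.trans (mul_le_mul_of_nonneg_left ?_ hP)
    linarith
  · push Not at hDn
    have hg1 : Real.exp (-(2 * D)) ≤ g := by
      have e1 : Real.exp (-(2 * D)) = Real.exp (-(2 * (1 / 2 : ℝ) ^ k)) ^ m := by
        rw [← Real.exp_nat_mul, hDx]
        ring_nf
      rw [hg, e1]
      exact pow_le_pow_left₀ (Real.exp_pos _).le (exp_le_one_sub hx0 hx1) m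
    have h2n : Real.exp (n / 2) ≤ 2 ^ n := by
      have e1 : (2 : ℝ) ^ n = Real.exp (n * Real.log 2) := by
        rw [mul_comm, Real.exp_mul, Real.exp_log (by norm_num), Real.rpow_natCast]
      rw [e1, Real.exp_le_exp]
      have := Real.log_two_gt_d9
      nlinarith
    have h3 : Real.exp (n / 100) ≤ 2 ^ n * g := by
      refine le_trans ?_ (mul_le_mul h2n hg1 (Real.exp_pos _).le (by positivity))
      rw [← Real.exp_add, Real.exp_le_exp]
      linarith
    have h4 : c * T ≤ Real.exp (n / 100) * P :=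
      (mul_le_mul_of_nonneg_left hT1 hc0).trans (mul_le_mul_of_nonneg_right hc hP)
    calc c * T ≤ Real.exp (n / 100) * P := h4
      _ ≤ (2 ^ n * g) * P := mul_le_mul_of_nonneg_right h3 hP
      _ ≤ P * (1 + 2 ^ n * g) := by nlinarith

theorem pf_NSS (hNS1 : Pool.Agent.H47.PL.T_NS1) : T_NSS := by
  intro k n m hk hkn
  have hkr : (2 : ℝ) ≤ k := by exact_mod_cast hk
  have hk0 : (0 : ℝ) < k := by linarith
  have hn1 : 1 ≤ n := by omega
  have hn0 : (0 : ℝ) < n := by exact_mod_cast (by omega : 0 < n)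
  have hknr : (k : ℝ) ≤ n := by exact_mod_cast hkn
  obtain ⟨Δ, hΔ⟩ : ∃ Δ : ℝ, Δ = m / (2 ^ k * n) := ⟨_, rfl⟩
  have hΔ0 : 0 ≤ Δ := by
    rw [hΔ]
    positivity
  obtain ⟨L, hL⟩ : ∃ L : ℝ, L = Real.log (k * (1 + Δ)) := ⟨_, rfl⟩
  obtain ⟨v, hv⟩ : ∃ v : ℝ, v = sav n k m := ⟨_, rfl⟩
  have hvL : v * k = L := by
    rw [hv, hL, hΔ]
    unfold sav
    field_simp
  have hlogk : Real.log k ≤ L := by
    rw [hL]
    refine Real.log_le_log hk0 ?_
    nlinarith
  have hlog2 : (1 / 2 : ℝ) ≤ Real.log k := by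
    have h1 := Real.log_le_log (by norm_num) hkr
    have h2 := Real.log_two_gt_d9
    linarith
  have hL2 : 1 / 2 ≤ L := hlog2.trans hlogk
  have hv0 : 0 < v := by
    by_contra hc
    push Not at hc
    nlinarith
  rw [← hv]
  obtain ⟨g, hg⟩ : ∃ g : ℝ, g = (1 - (1 / 2 : ℝ) ^ k) ^ m := ⟨_, rfl⟩
  have hx1 : (1 / 2 : ℝ) ^ k ≤ 1 := pow_le_one₀ (by norm_num) (by norm_num)
  have hg0 : 0 ≤ g := by
    rw [hg]
    exact pow_nonneg (by linarith) _
  have hgu : (2 : ℝ) ^ n * guess n k m = 1 + 2 ^ n * g := by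
    unfold guess
    rw [mul_add, ← mul_pow, hg]
    norm_num
  rw [hgu]
  obtain ⟨P, hP⟩ : ∃ P : ℝ, P = (((2 : ℝ) ^ k - 1) * (n.descFactorial k : ℝ)) ^ m := ⟨_, rfl⟩
  have hP0 : 0 ≤ P := by
    rw [hP]
    have h1 : (1 : ℝ) ≤ 2 ^ k := one_le_pow₀ (by norm_num)
    have h2 : (0 : ℝ) ≤ 2 ^ k - 1 := by linarith
    positivity
  rw [← hP]
  have hsum : (∑ w ∈ range (n + 1), (n.choose w : ℝ)) = 2 ^ n := by
    have := Nat.sum_range_choose n
    exact_mod_cast this
  obtain ⟨T, hT⟩ : ∃ T : ℕ → ℝ, T = fun w =>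
      (((2 : ℝ) ^ k - 2) * (n.descFactorial k : ℝ) + ((n - w).descFactorial k : ℝ)) ^ m := ⟨_, rfl⟩
  have hT1 : ∀ w ∈ range (n + 1), T w ≤ P := by
    intro w hw
    rw [Finset.mem_range] at hw
    have := (hNS1 n k m w 1 (by omega) hkn (by omega) (by norm_num) le_rfl).1
    rw [hT, hP]
    exact this
  have hT2 : ∀ w ∈ range (n + 1), ∀ ξ : ℝ, 0 < ξ → ξ ≤ 1 → ξ * n ≤ w →
      T w ≤ P * g * Real.exp (4 * (1 - ξ) ^ k * m / 2 ^ k) := by
    intro w hw ξ h0 h1 h2
    rw [Finset.mem_range] at hw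
    have := (hNS1 n k m w ξ (by omega) hkn (by omega) h0 h1).2 h2
    rw [hT, hP, hg]
    exact this
  have hgoal : ∑ w ∈ range (n + 1), (n.choose w : ℝ) *
      (((2 : ℝ) ^ k - 2) * (n.descFactorial k : ℝ) + ((n - w).descFactorial k : ℝ)) ^ m =
      ∑ w ∈ range (n + 1), (n.choose w : ℝ) * T w := by
    rw [hT]
  rw [hgoal]
  have hG : 1 ≤ 1 + 2 ^ n * g := by
    have : 0 ≤ (2 : ℝ) ^ n * g := by positivity
    linarith
  by_cases hbig : 1 ≤ 2 ^ 27 * v
  · have h1 : ∑ w ∈ range (n + 1), (n.choose w : ℝ) * T w ≤ 2 ^ n * P := by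
      rw [← hsum, Finset.sum_mul]
      exact Finset.sum_le_sum fun w hw =>
        mul_le_mul_of_nonneg_left (hT1 w hw) (Nat.cast_nonneg _)
    have h2 : (2 : ℝ) ^ n ≤ (2 : ℝ) ^ (2 ^ 27 * v * n) := by
      rw [← Real.rpow_natCast]
      refine Real.rpow_le_rpow_of_exponent_le (by norm_num) ?_
      nlinarith
    refine h1.trans (mul_le_mul_of_nonneg_right ?_ hP0)
    calc (2 : ℝ) ^ n = 2 ^ n * 1 := (mul_one _).symm
      _ ≤ _ := mul_le_mul h2 hG (by norm_num) (by positivity)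
  push Not at hbig
  -- `k` is large
  have hkbig : (2 : ℝ) ^ 26 < k := by
    by_contra hc
    push Not at hc
    have h1 : 2 ^ 27 * v * k < 1 * k := mul_lt_mul_of_pos_right hbig hk0
    nlinarith
  have hk8r : (8 : ℝ) ≤ k := by
    refine le_trans ?_ hkbig.le
    norm_num
  have hk8 : 8 ≤ k := by exact_mod_cast hk8r
  have hv1 : v ≤ 1 := by
    have : (1 : ℝ) ≤ 2 ^ 27 := by norm_num
    nlinarith
  have hvn : L * n / k = v * n := by
    rw [← hvL]
    field_simp
  -- the terms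
  have hterm : ∀ w ∈ range (n + 1), (n.choose w : ℝ) * T w ≤
      (Real.exp (10 * (v * n)) * P + P * (1 + 2 ^ n * g)) +
        (n.choose w : ℝ) * (P * g * Real.exp (8 * (v * n))) := by
    intro w hw
    have hwn : w ≤ n := by
      rw [Finset.mem_range] at hw
      omega
    have hc0 : (0 : ℝ) ≤ (n.choose w : ℝ) := Nat.cast_nonneg _
    have a1 : 0 ≤ Real.exp (10 * (v * n)) * P := by positivity
    have a2 : 0 ≤ P * (1 + 2 ^ n * g) := by positivity
    have a3 : 0 ≤ (n.choose w : ℝ) * (P * g * Real.exp (8 * (v * n))) := by positivity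
    by_cases hw1 : v * n ≤ w
    · -- many variables
      have h1 := hT2 w hw v hv0 hv1 hw1
      have h2 : (1 - v) ^ k ≤ (k * (1 + Δ))⁻¹ := by
        have e1 : (k * (1 + Δ))⁻¹ = Real.exp (-v) ^ k := by
          rw [← Real.exp_nat_mul]
          have e2 : (k : ℝ) * -v = -L := by
            rw [← hvL]
            ring
          rw [e2, Real.exp_neg, hL, Real.exp_log (by positivity)]
        rw [e1]
        exact pow_le_pow_left₀ (by linarith) (Real.one_sub_le_exp_neg _) k
      have h3 : 4 * (1 - v) ^ k * m / 2 ^ k ≤ 8 * (v * n) := by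
        have e1 : 4 * (1 - v) ^ k * m / 2 ^ k = 4 * (1 - v) ^ k * (Δ * n) := by
          rw [hΔ]
          field_simp
        rw [e1]
        have h4 : 4 * (1 - v) ^ k * (Δ * n) ≤ 4 * (k * (1 + Δ))⁻¹ * (Δ * n) := by gcongr
        refine h4.trans ?_
        have h5 : 4 * (k * (1 + Δ))⁻¹ * (Δ * n) ≤ 4 * n / k := by
          rw [mul_inv]
          have h6 : (1 + Δ)⁻¹ * Δ ≤ 1 := by
            rw [inv_mul_le_iff₀ (by linarith)]
            linarith
          have h7 : 0 ≤ 4 * (k : ℝ)⁻¹ * n := by positivity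
          calc 4 * ((k : ℝ)⁻¹ * (1 + Δ)⁻¹) * (Δ * n) = 4 * (k : ℝ)⁻¹ * n * ((1 + Δ)⁻¹ * Δ) := by
                ring
            _ ≤ 4 * (k : ℝ)⁻¹ * n * 1 := mul_le_mul_of_nonneg_left h6 h7
            _ = 4 * n / k := by
                rw [div_eq_mul_inv]
                ring
        refine h5.trans ?_
        rw [← hvn, div_le_iff₀ hk0]
        have e3 : 8 * (L * n / k) * k = 8 * L * n := by field_simp
        rw [e3]
        nlinarith
      have h5 : T w ≤ P * g * Real.exp (8 * (v * n)) :=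
        h1.trans (mul_le_mul_of_nonneg_left (Real.exp_le_exp.2 h3) (by positivity))
      have h6 := mul_le_mul_of_nonneg_left h5 hc0
      linarith
    · push Not at hw1
      by_cases hw2 : 8 / (k : ℝ) * n ≤ w
      · -- medium
        have hlog : Real.log (1 / 256 : ℝ) = -Real.log 256 := by
          rw [one_div, Real.log_inv]
        have hl2 : Real.log 256 ≤ 255 := by
          have := Real.log_le_sub_one_of_pos (by norm_num : (0 : ℝ) < 256)
          linarith
        have hc : (n.choose w : ℝ) ≤ Real.exp (n / 100) := by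
          refine (choose_le_exp hwn (by norm_num : (0 : ℝ) < 1 / 256)).trans ?_
          rw [Real.exp_le_exp, hlog]
          have hw0 : (0 : ℝ) ≤ w := Nat.cast_nonneg _
          have h1 : (w : ℝ) * Real.log 256 ≤ w * 255 := mul_le_mul_of_nonneg_left hl2 hw0
          have h2 : (2 : ℝ) ^ 27 * w ≤ n := by nlinarith
          norm_num at h2
          linarith
        have h1 := term2 (n := n) (k := k) (m := m) (w := w) hk8 hn1 hc0 hc hP0 rfl hg
          (hT1 w hw) (fun h => hT2 w hw (8 / k) (by positivity)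
            (by rw [div_le_one hk0]; exact hk8r) h) hw2
        linarith
      · -- few
        push Not at hw2
        have hc : (n.choose w : ℝ) ≤ Real.exp (10 * (v * n)) := by
          refine (choose_le_exp hwn (by positivity : (0 : ℝ) < 1 / k)).trans ?_
          rw [Real.exp_le_exp, one_div, Real.log_inv, ← hvn]
          have hlk0 : 0 ≤ Real.log k := by linarith
          have h1 : (w : ℝ) * Real.log k ≤ 8 / k * n * L :=
            mul_le_mul hw2.le hlogk hlk0 (by positivity)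
          have h2 : (n : ℝ) * (k : ℝ)⁻¹ ≤ 2 * (L * n / k) := by
            rw [← div_eq_mul_inv, div_le_iff₀ hk0]
            have e3 : 2 * (L * n / k) * k = 2 * L * n := by field_simp
            rw [e3]
            nlinarith
          have h3 : 8 / (k : ℝ) * n * L = 8 * (L * n / k) := by ring
          linarith
        have h1 : (n.choose w : ℝ) * T w ≤ Real.exp (10 * (v * n)) * P :=
          (mul_le_mul_of_nonneg_left (hT1 w hw) hc0).trans (mul_le_mul_of_nonneg_right hc hP0)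
        linarith
  have hS := Finset.sum_le_sum hterm
  rw [Finset.sum_add_distrib, ← Finset.sum_mul, hsum, Finset.sum_const, Finset.card_range,
    nsmul_eq_mul] at hS
  refine hS.trans ?_
  push_cast
  -- numbers
  have hvn0 : 0 ≤ v * n := by positivity
  obtain ⟨E, hE⟩ : ∃ E : ℝ, E = Real.exp (10 * (v * n)) := ⟨_, rfl⟩
  have hE1 : 1 ≤ E := by
    rw [hE]
    exact Real.one_le_exp (by positivity)
  have hE8 : Real.exp (8 * (v * n)) ≤ E := by
    rw [hE, Real.exp_le_exp]
    linarith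
  obtain ⟨G, hGd⟩ : ∃ G : ℝ, G = 1 + 2 ^ n * g := ⟨_, rfl⟩
  rw [← hGd] at hG
  rw [← hE, ← hGd]
  have h1 : ((n : ℝ) + 1) * (E * P + P * G) + 2 ^ n * (P * g * Real.exp (8 * (v * n))) ≤
      (2 * n + 3) * (E * G) * P := by
    have b1 : E ≤ E * G := le_mul_of_one_le_right (by linarith) hG
    have b2 : G ≤ E * G := le_mul_of_one_le_left (by linarith) hE1
    have b3 : (2 : ℝ) ^ n * g * Real.exp (8 * (v * n)) ≤ E * G := by
      have : (2 : ℝ) ^ n * g ≤ G := by linarith
      calc (2 : ℝ) ^ n * g * Real.exp (8 * (v * n)) ≤ G * E :=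
            mul_le_mul this hE8 (Real.exp_pos _).le (by linarith)
        _ = E * G := mul_comm _ _
    have b4 : ((n : ℝ) + 1) * (E + G) ≤ (n + 1) * (2 * (E * G)) :=
      mul_le_mul_of_nonneg_left (by linarith) (by positivity)
    calc ((n : ℝ) + 1) * (E * P + P * G) + 2 ^ n * (P * g * Real.exp (8 * (v * n)))
        = (((n : ℝ) + 1) * (E + G) + 2 ^ n * g * Real.exp (8 * (v * n))) * P := by ring
      _ ≤ ((n + 1) * (2 * (E * G)) + E * G) * P :=
          mul_le_mul_of_nonneg_right (by linarith) hP0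
      _ = _ := by ring
  refine h1.trans (mul_le_mul_of_nonneg_right ?_ hP0)
  rw [← mul_assoc]
  refine mul_le_mul_of_nonneg_right ?_ (by linarith)
  have hlogn : Real.log n ≤ v * n := by
    have he : Real.exp 1 ≤ (k : ℝ) := by
      have := Real.exp_one_lt_d9
      linarith
    have h2 := Real.log_div_self_antitoneOn (a := (k : ℝ)) (b := (n : ℝ)) he (he.trans hknr) hknr
    simp only at h2
    have h3 : Real.log k / k ≤ v := by
      rw [div_le_iff₀ hk0, hvL]
      exact hlogk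
    have h4 := h2.trans h3
    rwa [div_le_iff₀ hn0] at h4
  have h2n : (2 * (n : ℝ) + 3) ≤ Real.exp (2 * (v * n)) := by
    have h8 : (8 : ℝ) ≤ n := hk8r.trans hknr
    have h3 : (2 * (n : ℝ) + 3) ≤ n ^ 2 := by nlinarith
    have h4 : (n : ℝ) ^ 2 = Real.exp (2 * Real.log n) := by
      rw [mul_comm, Real.exp_mul, Real.exp_log hn0]
      norm_num
    rw [h4] at h3
    refine h3.trans (Real.exp_le_exp.2 ?_)
    linarith
  calc (2 * (n : ℝ) + 3) * E ≤ Real.exp (2 * (v * n)) * E :=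
        mul_le_mul_of_nonneg_right h2n (by linarith)
    _ = Real.exp (12 * (v * n)) := by
        rw [hE, ← Real.exp_add]
        ring_nf
    _ ≤ (2 : ℝ) ^ (2 ^ 27 * v * n) := by
        rw [Real.rpow_def_of_pos (by norm_num), Real.exp_le_exp]
        have h5 := Real.log_two_gt_d9
        have h6 : 12 * (v * n) ≤ 1 / 2 * (2 ^ 27 * (v * n)) := by
          norm_num
          linarith
        have h7 : 1 / 2 * (2 ^ 27 * (v * n)) ≤ Real.log 2 * (2 ^ 27 * (v * n)) :=
          mul_le_mul_of_nonneg_right (by linarith) (by positivity)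
        calc 12 * (v * n) ≤ Real.log 2 * (2 ^ 27 * (v * n)) := h6.trans h7
          _ = _ := by ring

end Pool.Agent.H4.SR
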