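import Pool.Agent.H47.SQ.Targets

/-!
All scales together: board `ppz_modules`, row `MSC` (MP_c62aed_lc).
-/

set_option autoImplicit false

namespace Pool.Agent.H4.SR

open Finset Pool.Agent.H97.RK Pool.Agent.H41.SS
open Pool.Agent.H47.PL (Sat Agr Con dm nsol Os)
open Pool.Agent.H47.SQ (Derivation Refuted Find success sav guess AlmostAll)
open Pool.Agent.H47.SR

open Classical in
theorem success_eq {n k m : ℕ} (F : Fml n k m) (a s : ℕ) (T : Pool.Agent.H47.SQ.Tree n) :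
    success F a s T = ((univ.filter fun ω => Find F (Refuted F a s) ω T ∅).card : ℝ) /
      (Fintype.card (Finset (Fin n × Bool) → Bool) : ℝ) := by
  unfold success
  rw [Nat.card_eq_fintype_card, Nat.card_eq_fintype_card, Fintype.card_subtype]

theorem tb0 {X Nh : ℝ} {t u : ℕ} (hX : X ≤ Nh) (hX0 : 0 ≤ X) (h : 4 * t ≤ u) :
    2 ^ (0 + 1) * (X * 2 ^ (4 * t)) * 2 ^ u ≤ 2 * Nh * 2 ^ (2 * u) * (1 / 2) ^ 0 := by
  have h1 : (2 : ℝ) ^ (4 * t) ≤ 2 ^ u := pow_le_pow_right₀ (by norm_num) h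
  have h2 : (2 : ℝ) ^ (2 * u) = 2 ^ u * 2 ^ u := by rw [two_mul, pow_add]
  rw [h2, zero_add, pow_one, pow_zero, mul_one]
  have h3 : X * 2 ^ (4 * t) ≤ Nh * 2 ^ u :=
    mul_le_mul hX h1 (by positivity) (hX0.trans hX)
  calc 2 * (X * 2 ^ (4 * t)) * 2 ^ u ≤ 2 * (Nh * 2 ^ u) * 2 ^ u := by gcongr
    _ = 2 * Nh * (2 ^ u * 2 ^ u) := by ring

theorem tb1 {X Nh P : ℝ} {j t u : ℕ} (hX : X * 2 ^ (5 * u) ≤ Nh) (hX0 : 0 ≤ X)
    (h1 : 8 * t ≤ u) (h2 : j + 2 ≤ u) (hP : 1 ≤ P) :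
    2 ^ (j + 1 + 1) * (X * 2 ^ (4 * (2 * t))) * 2 ^ (2 * u) ≤ 2 * Nh * P * (1 / 2) ^ (j + 1) := by
  have h3 : (2 : ℝ) ^ (2 * j + 3 + 8 * t + 2 * u) ≤ 2 ^ (5 * u) :=
    pow_le_pow_right₀ (by norm_num) (by omega)
  have h4 : 2 ^ (j + 1 + 1) * (X * 2 ^ (4 * (2 * t))) * 2 ^ (2 * u) * 2 ^ (j + 1) ≤ Nh := by
    refine le_trans (le_of_eq ?_) ((mul_le_mul_of_nonneg_left h3 hX0).trans hX)
    have e : 2 * j + 3 + 8 * t + 2 * u = (j + 1 + 1) + 4 * (2 * t) + 2 * u + (j + 1) := by omega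
    rw [e, pow_add, pow_add, pow_add]
    ring
  have h5 : (0 : ℝ) < (1 / 2) ^ (j + 1) := by positivity
  have h6 : (2 : ℝ) ^ (j + 1) * (1 / 2) ^ (j + 1) = 1 := by
    rw [← mul_pow]
    norm_num
  have h7 := mul_le_mul_of_nonneg_right h4 h5.le
  rw [mul_assoc _ ((2 : ℝ) ^ (j + 1)), h6, mul_one] at h7
  refine h7.trans ?_
  have hN : 0 ≤ Nh := le_trans (by positivity) hX
  refine mul_le_mul_of_nonneg_right ?_ h5.le
  nlinarith

open Classical in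
theorem scales (hRSV : T_RSV) (hNUA : T_NUA) (hDRQ : T_DRQ) (hPIG : T_PIG) (n k m : ℕ)
    (F : Fml n k m) (t₀ I : ℕ) (Nh : ℝ) (ht₀ : 1 ≤ t₀) (hIn : 2 ^ 15 * (2 ^ I * t₀) ≤ n)
    (hNh : (nsol F : ℝ) ≤ Nh)
    (hbad : ∀ i, i ≤ I → (bad F (2 ^ i * t₀) : ℝ) * 2 ^ (5 * (2 ^ 15 * (2 ^ i * t₀))) ≤ Nh)
    (a s : ℕ) (T : Pool.Agent.H47.SQ.Tree n) (ha : a ≤ t₀)
    (hgI : ∀ τ, Sat F τ → τ ∈ gds F (2 ^ I * t₀)) (i0 : ℕ) (hi0I : i0 ≤ I)
    (hi0 : s ^ 2 ≤ 2 ^ (2 ^ 15 * (2 ^ i0 * t₀))) :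
    ((univ.filter fun ω => Find F (Refuted F a s) ω T ∅).card : ℝ) * 2 ^ n ≤
      (Fintype.card (Finset (Fin n × Bool) → Bool) : ℝ) *
        (4 * Nh * 2 ^ (2 * (2 ^ 15 * (2 ^ i0 * t₀)))) := by
  have hNh0 : 0 ≤ Nh := le_trans (Nat.cast_nonneg _) hNh
  have hcon : Con (∅ : Finset (Fin n × Bool)) := fun v b h => absurd h (Finset.notMem_empty _)
  obtain ⟨C, hC0, hCs⟩ : ∃ C : ℕ → Finset (Fin n → Bool), C 0 = gds F (2 ^ i0 * t₀) ∧
      ∀ j, C (j + 1) = gds F (2 ^ (i0 + (j + 1)) * t₀) \ gds F (2 ^ (i0 + j) * t₀) :=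
    ⟨fun j => Nat.casesOn j (gds F (2 ^ i0 * t₀))
      (fun j => gds F (2 ^ (i0 + (j + 1)) * t₀) \ gds F (2 ^ (i0 + j) * t₀)), rfl, fun j => rfl⟩
  have hCsub : ∀ j, C j ⊆ gds F (2 ^ (i0 + j) * t₀) := by
    intro j
    cases j with
    | zero =>
      rw [hC0, Nat.add_zero]
    | succ j =>
      rw [hCs]
      exact Finset.sdiff_subset
  have hcov : ∀ τ, Sat F τ → ∃ j, j < I + 1 - i0 ∧ τ ∈ C j := by
    intro τ hτ
    have hI : τ ∈ gds F (2 ^ (i0 + (I - i0)) * t₀) := by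
      rw [Nat.add_sub_cancel' hi0I]
      exact hgI τ hτ
    have hex : ∃ j, τ ∈ gds F (2 ^ (i0 + j) * t₀) := ⟨I - i0, hI⟩
    obtain ⟨j, hj1, hj2, hj3⟩ : ∃ j, τ ∈ gds F (2 ^ (i0 + j) * t₀) ∧ j ≤ I - i0 ∧
        ∀ i < j, τ ∉ gds F (2 ^ (i0 + i) * t₀) :=
      ⟨Nat.find hex, Nat.find_spec hex, Nat.find_min' hex hI, fun i hi => Nat.find_min hex hi⟩
    refine ⟨j, by omega, ?_⟩
    cases j with
    | zero =>
      rw [hC0]
      rw [Nat.add_zero] at hj1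
      exact hj1
    | succ j =>
      rw [hCs, Finset.mem_sdiff]
      exact ⟨hj1, hj3 j (Nat.lt_succ_self j)⟩
  have hFQ : (univ.filter fun ω => Find F (Refuted F a s) ω T ∅).card ≤
      ∑ j ∈ range (I + 1 - i0),
        (univ.filter fun ω => FindQ (Refuted F a s) (Qi (C j) j) ω T ∅).card := by
    refine le_trans (Finset.card_le_card ?_) Finset.card_biUnion_le
    intro ω hω
    rw [Finset.mem_filter] at hω
    obtain ⟨j, hj, hq⟩ := hPIG n k m F (Refuted F a s) ω (I + 1 - i0) C hcov T ∅ hcon hω.2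
    rw [Finset.mem_biUnion]
    exact ⟨j, Finset.mem_range.2 hj, Finset.mem_filter.2 ⟨Finset.mem_univ _, hq⟩⟩
  -- the sizes of the classes
  have hc0 : ((C 0).card : ℝ) ≤ Nh := by
    refine le_trans ?_ hNh
    refine Nat.cast_le.2 ?_
    rw [hC0]
    unfold gds nsol
    refine Finset.card_le_card fun τ hτ => ?_
    rw [Finset.mem_filter] at hτ ⊢
    exact ⟨hτ.1, hτ.2.1⟩
  have hc1 : ∀ j, (C (j + 1)).card ≤ bad F (2 ^ (i0 + j) * t₀) := by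
    intro j
    rw [hCs]
    unfold gds bad
    refine Finset.card_le_card fun τ hτ => ?_
    rw [Finset.mem_sdiff, Finset.mem_filter] at hτ
    rw [Finset.mem_filter]
    refine ⟨Finset.mem_univ _, hτ.1.2.1, fun h => hτ.2 ?_⟩
    rw [Finset.mem_filter]
    exact ⟨Finset.mem_univ _, hτ.1.2.1, h⟩
  -- one class
  have hterm : ∀ j ∈ range (I + 1 - i0),
      ((univ.filter fun ω => FindQ (Refuted F a s) (Qi (C j) j) ω T ∅).card : ℝ) * 2 ^ n ≤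
      (Fintype.card (Finset (Fin n × Bool) → Bool) : ℝ) *
        (2 * Nh * 2 ^ (2 * (2 ^ 15 * (2 ^ i0 * t₀))) * (1 / 2) ^ j) := by
    intro j hj
    rw [Finset.mem_range] at hj
    have hjI : i0 + j ≤ I := by omega
    obtain ⟨t, ht⟩ : ∃ t : ℕ, t = 2 ^ (i0 + j) * t₀ := ⟨_, rfl⟩
    have ht0 : t₀ ≤ t := by
      rw [ht]
      exact Nat.le_mul_of_pos_left _ (by positivity)
    have ht1 : 2 ^ i0 * t₀ ≤ t := by
      rw [ht]
      exact Nat.mul_le_mul_right _ (Nat.pow_le_pow_right (by norm_num) (Nat.le_add_right _ _))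
    have htI : t ≤ 2 ^ I * t₀ := by
      rw [ht]
      exact Nat.mul_le_mul_right _ (Nat.pow_le_pow_right (by norm_num) hjI)
    have htn : 2 ^ 15 * t ≤ n := le_trans (Nat.mul_le_mul_left _ htI) hIn
    have hst : s ^ 2 ≤ 2 ^ (2 ^ 15 * t) :=
      hi0.trans (Nat.pow_le_pow_right (by norm_num) (Nat.mul_le_mul_left _ ht1))
    have hCt : C j ⊆ gds F t := by
      rw [ht]
      exact hCsub j
    obtain ⟨Res, hRes⟩ := hRSV n k m F t a s (C j) (by omega) htn (by omega) hCt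
      (fun N S hS hN1 hN2 => hNUA t s N S (by omega) hst hS hN1 hN2)
    have h5 := hDRQ n (C j) (n - 2 ^ 15 * t) (4 * t) (Refuted F a s) Res hRes (Nat.sub_le _ _)
      (2 ^ (j + 1)) (Qi (C j) j) (fun L hL => hL) T
    have h6 : ((univ.filter fun ω => FindQ (Refuted F a s) (Qi (C j) j) ω T ∅).card : ℝ) *
        2 ^ (n - 2 ^ 15 * t) ≤ 2 ^ (j + 1) * (((C j).card : ℝ) * 2 ^ (4 * t)) *
        (Fintype.card (Finset (Fin n × Bool) → Bool) : ℝ) := by exact_mod_cast h5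
    have h7 : (2 : ℝ) ^ n = 2 ^ (n - 2 ^ 15 * t) * 2 ^ (2 ^ 15 * t) := by
      rw [← pow_add, Nat.sub_add_cancel htn]
    have h8 : 2 ^ (j + 1) * (((C j).card : ℝ) * 2 ^ (4 * t)) * 2 ^ (2 ^ 15 * t) ≤
        2 * Nh * 2 ^ (2 * (2 ^ 15 * (2 ^ i0 * t₀))) * (1 / 2) ^ j := by
      cases j with
      | zero =>
        rw [Nat.add_zero] at ht
        rw [← ht]
        exact tb0 hc0 (Nat.cast_nonneg _) (by omega)
      | succ j =>
        obtain ⟨t', ht'⟩ : ∃ t' : ℕ, t' = 2 ^ (i0 + j) * t₀ := ⟨_, rfl⟩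
        have e1 : t = 2 * t' := by
          rw [ht, ht', ← Nat.add_assoc, pow_succ]
          ring
        have e2 : 2 ^ 15 * (2 * t') = 2 * (2 ^ 15 * t') := by ring
        have h9 : ((C (j + 1)).card : ℝ) * 2 ^ (5 * (2 ^ 15 * t')) ≤ Nh := by
          have h10 := hbad (i0 + j) (by omega)
          rw [← ht'] at h10
          refine le_trans (mul_le_mul_of_nonneg_right ?_ (by positivity)) h10
          have h11 := hc1 j
          rw [← ht'] at h11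
          exact Nat.cast_le.2 h11
        have h12 : j + 1 ≤ t' := by
          rw [ht']
          have h13 : j < 2 ^ j := Nat.lt_two_pow_self
          have h14 : 2 ^ j ≤ 2 ^ (i0 + j) := Nat.pow_le_pow_right (by norm_num) (by omega)
          exact le_trans (by omega) (Nat.le_mul_of_pos_right _ ht₀)
        rw [e1, e2]
        exact tb1 h9 (Nat.cast_nonneg _) (by omega) (by omega) (one_le_pow₀ (by norm_num))
    rw [h7, ← mul_assoc]
    have hΩ0 : (0 : ℝ) ≤ (Fintype.card (Finset (Fin n × Bool) → Bool) : ℝ) := Nat.cast_nonneg _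
    calc _ ≤ (2 ^ (j + 1) * (((C j).card : ℝ) * 2 ^ (4 * t)) *
        (Fintype.card (Finset (Fin n × Bool) → Bool) : ℝ)) * 2 ^ (2 ^ 15 * t) :=
          mul_le_mul_of_nonneg_right h6 (by positivity)
      _ = (Fintype.card (Finset (Fin n × Bool) → Bool) : ℝ) *
          (2 ^ (j + 1) * (((C j).card : ℝ) * 2 ^ (4 * t)) * 2 ^ (2 ^ 15 * t)) := by ring
      _ ≤ _ := mul_le_mul_of_nonneg_left h8 hΩ0
  have hFr : ((univ.filter fun ω => Find F (Refuted F a s) ω T ∅).card : ℝ) ≤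
      ∑ j ∈ range (I + 1 - i0),
        ((univ.filter fun ω => FindQ (Refuted F a s) (Qi (C j) j) ω T ∅).card : ℝ) := by
    exact_mod_cast hFQ
  have hgeo := sum_geometric_two_le (I + 1 - i0)
  have hΩ0 : (0 : ℝ) ≤ (Fintype.card (Finset (Fin n × Bool) → Bool) : ℝ) := Nat.cast_nonneg _
  calc _ ≤ (∑ j ∈ range (I + 1 - i0),
        ((univ.filter fun ω => FindQ (Refuted F a s) (Qi (C j) j) ω T ∅).card : ℝ)) * 2 ^ n :=
        mul_le_mul_of_nonneg_right hFr (by positivity)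
    _ ≤ ∑ j ∈ range (I + 1 - i0), (Fintype.card (Finset (Fin n × Bool) → Bool) : ℝ) *
        (2 * Nh * 2 ^ (2 * (2 ^ 15 * (2 ^ i0 * t₀))) * (1 / 2) ^ j) := by
        rw [Finset.sum_mul]
        exact Finset.sum_le_sum hterm
    _ = (Fintype.card (Finset (Fin n × Bool) → Bool) : ℝ) *
        (2 * Nh * 2 ^ (2 * (2 ^ 15 * (2 ^ i0 * t₀))) * ∑ j ∈ range (I + 1 - i0), (1 / 2) ^ j) := by
        rw [Finset.mul_sum, Finset.mul_sum]
    _ ≤ (Fintype.card (Finset (Fin n × Bool) → Bool) : ℝ) *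
        (2 * Nh * 2 ^ (2 * (2 ^ 15 * (2 ^ i0 * t₀))) * 2) := by
        refine mul_le_mul_of_nonneg_left ?_ hΩ0
        exact mul_le_mul_of_nonneg_left hgeo (by positivity)
    _ = _ := by ring

theorem pf_MSC (hRSV : T_RSV) (hNUA : T_NUA) (hDRQ : T_DRQ) (hPIG : T_PIG) : T_MSC := by
  classical
  intro n k m F t₀ I Nh ht₀ hIn hIn2 hNh hNh2 hbad a s T ha hs
  have hsr : (1 : ℝ) ≤ s := by exact_mod_cast hs
  have hs8 : (1 : ℝ) ≤ (s : ℝ) ^ 8 := one_le_pow₀ hsr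
  have hNh0 : 0 ≤ Nh := le_trans (Nat.cast_nonneg _) hNh
  have hΩ0 : (0 : ℝ) < (Fintype.card (Finset (Fin n × Bool) → Bool) : ℝ) := by
    exact_mod_cast Fintype.card_pos
  have hcon : Con (∅ : Finset (Fin n × Bool)) := fun v b h => absurd h (Finset.notMem_empty _)
  rw [success_eq]
  by_cases hns : nsol F = 0
  · have hno : ∀ τ, ¬ Sat F τ := by
      intro τ hτ
      unfold nsol at hns
      rw [Finset.card_eq_zero, Finset.filter_eq_empty_iff] at hns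
      exact hns (Finset.mem_univ τ) hτ
    have hf0 : (univ.filter fun ω => Find F (Refuted F a s) ω T ∅).card = 0 := by
      rw [Finset.card_eq_zero, Finset.filter_eq_empty_iff]
      intro ω _ hω
      obtain ⟨i, hi, _⟩ := hPIG n k m F (Refuted F a s) ω 0 (fun _ => ∅)
        (fun τ hτ => absurd hτ (hno τ)) T ∅ hcon hω
      exact absurd hi (Nat.not_lt_zero i)
    rw [hf0, Nat.cast_zero, zero_div, zero_mul]
    positivity
  have hNh1 : 1 ≤ Nh := by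
    refine le_trans ?_ hNh
    exact_mod_cast Nat.one_le_iff_ne_zero.2 hns
  have hpos : (1 : ℝ) ≤ 2 ^ (2 * (2 ^ 15 * t₀) + 4) := one_le_pow₀ (by norm_num)
  -- the last scale
  have hbI : bad F (2 ^ I * t₀) = 0 := by
    by_contra hb
    have hb1 : (1 : ℝ) ≤ bad F (2 ^ I * t₀) := by exact_mod_cast Nat.one_le_iff_ne_zero.2 hb
    have h1 := hbad I le_rfl
    have h4 : t₀ ≤ 2 ^ I * t₀ := Nat.le_mul_of_pos_left _ (by positivity)
    obtain ⟨q, hq⟩ : ∃ q : ℕ, q = 2 ^ I * t₀ := ⟨_, rfl⟩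
    rw [← hq] at h1 hb1 h4 hIn2
    have h2 : (2 : ℝ) ^ (5 * (2 ^ 15 * q)) ≤ 2 ^ (2 ^ 15 * t₀ + n + 1) := by
      refine le_trans ?_ (h1.trans hNh2)
      exact le_mul_of_one_le_left (by positivity) hb1
    have h3 : 5 * (2 ^ 15 * q) ≤ 2 ^ 15 * t₀ + n + 1 :=
      (pow_le_pow_iff_right₀ (by norm_num)).1 h2
    omega
  have hgI : ∀ τ, Sat F τ → τ ∈ gds F (2 ^ I * t₀) := by
    intro τ hτ
    unfold gds
    rw [Finset.mem_filter]
    refine ⟨Finset.mem_univ _, hτ, ?_⟩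
    by_contra hc
    unfold bad at hbI
    rw [Finset.card_eq_zero, Finset.filter_eq_empty_iff] at hbI
    exact hbI (Finset.mem_univ τ) ⟨hτ, hc⟩
  by_cases hsI : s ^ 2 ≤ 2 ^ (2 ^ 15 * (2 ^ I * t₀))
  swap
  · have hf1 : ((univ.filter fun ω => Find F (Refuted F a s) ω T ∅).card : ℝ) ≤
        (Fintype.card (Finset (Fin n × Bool) → Bool) : ℝ) := by
      rw [← Finset.card_univ]
      exact_mod_cast Finset.card_le_card (Finset.filter_subset _ _)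
    have h1 : ((univ.filter fun ω => Find F (Refuted F a s) ω T ∅).card : ℝ) /
        (Fintype.card (Finset (Fin n × Bool) → Bool) : ℝ) ≤ 1 := by
      rw [div_le_one hΩ0]
      exact hf1
    push Not at hsI
    obtain ⟨q, hq⟩ : ∃ q : ℕ, q = 2 ^ I * t₀ := ⟨_, rfl⟩
    rw [← hq] at hsI hIn2
    have h2 : (2 : ℝ) ^ n ≤ (s : ℝ) ^ 8 := by
      have h3 : (2 : ℝ) ^ (2 ^ 15 * q) ≤ (s : ℝ) ^ 2 := by exact_mod_cast hsI.le
      calc (2 : ℝ) ^ n ≤ 2 ^ ((2 ^ 15 * q) * 4) := pow_le_pow_right₀ (by norm_num) (by omega)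
        _ = (2 ^ (2 ^ 15 * q)) ^ 4 := by rw [pow_mul]
        _ ≤ ((s : ℝ) ^ 2) ^ 4 := pow_le_pow_left₀ (by positivity) h3 4
        _ = (s : ℝ) ^ 8 := by rw [← pow_mul]
    calc _ ≤ 1 * (2 : ℝ) ^ n := mul_le_mul_of_nonneg_right h1 (by positivity)
      _ = (2 : ℝ) ^ n * 1 * 1 := by ring
      _ ≤ (s : ℝ) ^ 8 * 2 ^ (2 * (2 ^ 15 * t₀) + 4) * Nh := by gcongr
  have hex : ∃ i, s ^ 2 ≤ 2 ^ (2 ^ 15 * (2 ^ i * t₀)) := ⟨I, hsI⟩
  obtain ⟨i0, hi0, hi0I, hmin⟩ : ∃ i0, s ^ 2 ≤ 2 ^ (2 ^ 15 * (2 ^ i0 * t₀)) ∧ i0 ≤ I ∧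
      ∀ i < i0, ¬ s ^ 2 ≤ 2 ^ (2 ^ 15 * (2 ^ i * t₀)) :=
    ⟨Nat.find hex, Nat.find_spec hex, Nat.find_min' hex hsI, fun i hi => Nat.find_min hex hi⟩
  have hmain := scales hRSV hNUA hDRQ hPIG n k m F t₀ I Nh ht₀ hIn hNh hbad a s T ha hgI i0 hi0I hi0
  have h1 : ((univ.filter fun ω => Find F (Refuted F a s) ω T ∅).card : ℝ) /
      (Fintype.card (Finset (Fin n × Bool) → Bool) : ℝ) * 2 ^ n ≤
      4 * Nh * 2 ^ (2 * (2 ^ 15 * (2 ^ i0 * t₀))) := by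
    rw [div_mul_eq_mul_div, div_le_iff₀ hΩ0]
    exact hmain.trans (le_of_eq (mul_comm _ _))
  refine h1.trans ?_
  cases i0 with
  | zero =>
    rw [pow_zero, one_mul, pow_add]
    have h2 : (0 : ℝ) ≤ 2 ^ (2 * (2 ^ 15 * t₀)) * Nh := by positivity
    calc 4 * Nh * 2 ^ (2 * (2 ^ 15 * t₀)) = 4 * (2 ^ (2 * (2 ^ 15 * t₀)) * Nh) := by ring
      _ ≤ ((s : ℝ) ^ 8 * 2 ^ 4) * (2 ^ (2 * (2 ^ 15 * t₀)) * Nh) := by
          refine mul_le_mul_of_nonneg_right ?_ h2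
          nlinarith
      _ = _ := by ring
  | succ i =>
    have h2 := hmin i (Nat.lt_succ_self i)
    push Not at h2
    obtain ⟨q, hq⟩ : ∃ q : ℕ, q = 2 ^ i * t₀ := ⟨_, rfl⟩
    have e1 : 2 ^ (i + 1) * t₀ = 2 * q := by
      rw [hq, pow_succ]
      ring
    rw [← hq] at h2
    rw [e1]
    have h3 : (2 : ℝ) ^ (2 ^ 15 * q) ≤ (s : ℝ) ^ 2 := by exact_mod_cast h2.le
    have h4 : (2 : ℝ) ^ (2 * (2 ^ 15 * (2 * q))) ≤ (s : ℝ) ^ 8 := by
      calc (2 : ℝ) ^ (2 * (2 ^ 15 * (2 * q))) = (2 ^ (2 ^ 15 * q)) ^ 4 := by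
            rw [← pow_mul]
            ring_nf
        _ ≤ ((s : ℝ) ^ 2) ^ 4 := pow_le_pow_left₀ (by positivity) h3 4
        _ = (s : ℝ) ^ 8 := by rw [← pow_mul]
    have h5 : (4 : ℝ) ≤ 2 ^ (2 * (2 ^ 15 * t₀) + 4) := by
      calc (4 : ℝ) = 2 ^ 2 := by norm_num
        _ ≤ _ := pow_le_pow_right₀ (by norm_num) (by omega)
    calc 4 * Nh * 2 ^ (2 * (2 ^ 15 * (2 * q))) ≤ 4 * Nh * (s : ℝ) ^ 8 := by gcongr
      _ = (s : ℝ) ^ 8 * 4 * Nh := by ring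
      _ ≤ _ := by gcongr

end Pool.Agent.H4.SR
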