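import Pool.Agent.H75.SQ.Targets

/-!
# (PAB) the parameters, constant width
-/

set_option autoImplicit false

open Finset Matrix Pool.Agent.H75.SQ

namespace Pool.Agent.H4.SQ.PAB

private theorem two_rpow (x : ℝ) : (2 : ℝ) ^ x = Real.exp (Real.log 2 * x) :=
  Real.rpow_def_of_pos (by norm_num) x

private theorem two_pow (n : ℕ) : (2 : ℝ) ^ n = Real.exp (Real.log 2 * n) := by
  rw [← Real.rpow_natCast, two_rpow]

/-- the part with the kernel -/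
private theorem part1 {Λ b c τ : ℝ} {n r q : ℕ} (hΛ : 1 ≤ Λ) (hn1 : 1 ≤ n) (hn : 64 * Λ ≤ n)
    (hbr : 2 * c + 2 ≤ b * r) (hτ : (n : ℝ) ^ (-c) ≤ τ) (hq : (q : ℝ) ≤ n) :
    q * Λ * ((n : ℝ) ^ (-b)) ^ r ≤ τ ^ 2 / 64 := by
  have hn1' : (1 : ℝ) ≤ n := by exact_mod_cast hn1
  have hn0 : (0 : ℝ) < n := by linarith
  have h1 : ((n : ℝ) ^ (-b)) ^ r ≤ (n : ℝ) ^ (-(2 * c + 2)) := by
    rw [← Real.rpow_natCast, ← Real.rpow_mul hn0.le]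
    apply Real.rpow_le_rpow_of_exponent_le hn1'
    linarith
  have h2 : (n : ℝ) ^ (-(2 * c + 2)) = (n : ℝ) ^ (-c) * (n : ℝ) ^ (-c) * ((n : ℝ) * n)⁻¹ := by
    rw [← Real.rpow_add hn0, show -(2 * c + 2) = (-c + -c) + (-2 : ℝ) by ring,
      Real.rpow_add hn0]
    congr 1
    rw [Real.rpow_neg hn0.le]
    congr 1
    rw [show (2 : ℝ) = ((2 : ℕ) : ℝ) by norm_num, Real.rpow_natCast]
    ring
  have h3 : 0 ≤ (n : ℝ) ^ (-c) := Real.rpow_nonneg hn0.le _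
  have h4 : (n : ℝ) ^ (-c) * (n : ℝ) ^ (-c) ≤ τ ^ 2 := by
    rw [sq]
    exact mul_le_mul hτ hτ h3 (le_trans h3 hτ)
  have hΛ0 : 0 ≤ Λ := by linarith
  calc q * Λ * ((n : ℝ) ^ (-b)) ^ r ≤ n * Λ * (n : ℝ) ^ (-(2 * c + 2)) := by gcongr
    _ = ((n : ℝ) ^ (-c) * (n : ℝ) ^ (-c)) * (Λ / n) := by
      rw [h2]
      field_simp
    _ ≤ τ ^ 2 * (1 / 64) := by
      apply mul_le_mul h4 _ (by positivity) (by positivity)
      rw [div_le_div_iff₀ hn0 (by norm_num)]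
      linarith
    _ = τ ^ 2 / 64 := by ring

/-- the part with the norms -/
private theorem part2 {Λ c τ : ℝ} {n k r q m : ℕ} (hΛ : 1 ≤ Λ) (hn : 24 ≤ n)
    (hn2 : 9216 * Λ ≤ n) (hr : 2 * c + 4 ≤ r) (hrk : r ≤ k) (hτ0 : 0 < τ) (hτ1 : τ ≤ 1)
    (hτ : (n : ℝ) ^ (-c) ≤ τ) (hq : (q : ℝ) ≤ n)
    (hm : 2 ^ k * n ^ 2 * (q + 1) ^ 4 / τ ^ 4 ≤ (m : ℝ)) :
    3 * q / Real.sqrt m + 12 * q * Real.sqrt (Λ / (2 * n) ^ k) ≤ τ / 4 := by
  have hn0 : (24 : ℝ) ≤ n := by exact_mod_cast hn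
  have hnpos : (0 : ℝ) < n := by linarith
  have hq0 : (0 : ℝ) ≤ q := Nat.cast_nonneg q
  have hτ2 : 0 < τ ^ 2 := by positivity
  have hA : 3 * q / Real.sqrt m ≤ τ / 8 := by
    have h1 : (n * (q + 1) ^ 2 / τ ^ 2 : ℝ) ≤ Real.sqrt m := by
      apply Real.le_sqrt_of_sq_le
      refine le_trans ?_ hm
      have h2 : ((n * (q + 1) ^ 2 / τ ^ 2 : ℝ)) ^ 2 = 1 * n ^ 2 * (q + 1) ^ 4 / τ ^ 4 := by
        field_simp
      rw [h2]
      have h3 : (1 : ℝ) ≤ 2 ^ k := one_le_pow₀ (by norm_num)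
      gcongr
    have hpos : (0 : ℝ) < n * (q + 1) ^ 2 / τ ^ 2 := by positivity
    have h4 : 3 * q / Real.sqrt m ≤ 3 * q / (n * (q + 1) ^ 2 / τ ^ 2) :=
      div_le_div_of_nonneg_left (by positivity) hpos h1
    refine le_trans h4 ?_
    have h5 : 3 * q / (n * (q + 1) ^ 2 / τ ^ 2) = 3 * q * τ ^ 2 / (n * (q + 1) ^ 2 : ℝ) := by
      field_simp
    rw [h5, div_le_iff₀ (by positivity)]
    have h6 : τ ^ 2 ≤ τ := by nlinarith
    have h7 : (q : ℝ) ≤ (q + 1) ^ 2 := by nlinarith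
    calc 3 * q * τ ^ 2 ≤ 3 * (q + 1) ^ 2 * τ := by gcongr
      _ = τ / 8 * (24 * (q + 1) ^ 2) := by ring
      _ ≤ τ / 8 * (n * (q + 1) ^ 2) := by gcongr
  have hB : 12 * q * Real.sqrt (Λ / (2 * n) ^ k) ≤ τ / 8 := by
    have hpk : (0 : ℝ) < (2 * n : ℝ) ^ k := by positivity
    have h0 : 0 < (n : ℝ) ^ (-c) := Real.rpow_pos_of_pos hnpos _
    have h1 : (n : ℝ) ^ (2 * c + 4) ≤ (2 * n : ℝ) ^ k := by
      calc (n : ℝ) ^ (2 * c + 4) ≤ (n : ℝ) ^ (r : ℝ) :=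
            Real.rpow_le_rpow_of_exponent_le (by linarith) hr
        _ = (n : ℝ) ^ r := Real.rpow_natCast _ _
        _ ≤ (2 * n : ℝ) ^ r := by gcongr; linarith
        _ ≤ (2 * n : ℝ) ^ k := pow_le_pow_right₀ (by linarith) hrk
    have h2 : (n : ℝ) ^ (2 * c + 4) * ((n : ℝ) ^ (-c) * (n : ℝ) ^ (-c)) = (n : ℝ) ^ 4 := by
      rw [← Real.rpow_add hnpos, ← Real.rpow_add hnpos,
        show 2 * c + 4 + (-c + -c) = ((4 : ℕ) : ℝ) by push_cast; ring, Real.rpow_natCast]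
    have h9 : Real.sqrt (Λ / (2 * n) ^ k) ≤ (n : ℝ) ^ (-c) / (96 * n) := by
      apply Real.sqrt_le_iff.2
      refine ⟨by positivity, ?_⟩
      have h10 : ((n : ℝ) ^ (-c) / (96 * n)) ^ 2 =
          ((n : ℝ) ^ (-c) * (n : ℝ) ^ (-c)) / (9216 * (n : ℝ) ^ 2) := by
        rw [div_pow]
        ring
      rw [h10, div_le_div_iff₀ hpk (by positivity)]
      have h11 : Λ * 9216 ≤ (n : ℝ) ^ 2 := by nlinarith
      have h12 : 0 ≤ (n : ℝ) ^ (-c) * (n : ℝ) ^ (-c) := by positivity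
      calc Λ * (9216 * (n : ℝ) ^ 2) = (Λ * 9216) * (n : ℝ) ^ 2 := by ring
        _ ≤ (n : ℝ) ^ 2 * (n : ℝ) ^ 2 := by gcongr
        _ = (n : ℝ) ^ (2 * c + 4) * ((n : ℝ) ^ (-c) * (n : ℝ) ^ (-c)) := by rw [h2]; ring
        _ ≤ (2 * n : ℝ) ^ k * ((n : ℝ) ^ (-c) * (n : ℝ) ^ (-c)) := by gcongr
        _ = (n : ℝ) ^ (-c) * (n : ℝ) ^ (-c) * (2 * n : ℝ) ^ k := by ring
    calc 12 * q * Real.sqrt (Λ / (2 * n) ^ k)
        ≤ 12 * n * ((n : ℝ) ^ (-c) / (96 * n)) := by gcongr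
      _ = (n : ℝ) ^ (-c) / 8 := by field_simp; norm_num
      _ ≤ τ / 8 := by linarith
  linarith

/-- the part with the number of assignments of large correlation -/
private theorem part3a {Λ e c τ f N : ℝ} {n q T : ℕ} (hΛ : 1 ≤ Λ) (he : 0 < e) (he1 : e < 1)
    (hc : 0 < c) (hn1 : 1 ≤ n) (hN : N = (n : ℝ) ^ (1 - e))
    (hn : 2 * (9 + 2 * c / (1 - e) + Real.log Λ + 4) ≤ (n : ℝ) ^ (3 * e / 4))
    (hq : (q : ℝ) ≤ N) (hτ0 : 0 < τ) (hτ : (n : ℝ) ^ (-c) ≤ τ)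
    (hT : (T : ℝ) ≤ 2 ^ N) (hf0 : 0 ≤ f)
    (hf : f ≤ 2 * 2 ^ n * Real.exp (-(n * ((n : ℝ) ^ (-(e / 8))) ^ 2 / 2))) :
    16 * (T : ℝ) ^ 2 * (64 / τ ^ 2 * Λ ^ q * f / 2 ^ n) / ((2 : ℝ) ^ (-N)) ^ 2 ≤
      (2 : ℝ) ^ (-N) / 3 := by
  have hl1 : Real.log 2 < 0.6932 := by linarith [Real.log_two_lt_d9]
  have hl0 : 0.6931 < Real.log 2 := by linarith [Real.log_two_gt_d9]
  have hn1' : (1 : ℝ) ≤ n := by exact_mod_cast hn1
  have hn0 : (0 : ℝ) < n := by linarith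
  have hN1 : 1 ≤ N := by
    rw [hN]
    exact Real.one_le_rpow hn1' (by linarith)
  have hT2 : (T : ℝ) ^ 2 ≤ Real.exp (2 * (Real.log 2 * N)) := by
    have h1 : (T : ℝ) ^ 2 ≤ ((2 : ℝ) ^ N) ^ 2 := by gcongr
    refine le_trans h1 (le_of_eq ?_)
    rw [two_rpow, ← Real.exp_nat_mul]
    congr 1
  have hlogn : Real.log n ≤ N / (1 - e) := by
    rw [hN]
    exact Real.log_le_rpow_div hn0.le (by linarith)
  have hτ2 : 1 / τ ^ 2 ≤ Real.exp (2 * c * (N / (1 - e))) := by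
    have h0 : (n : ℝ) ^ (-c) = Real.exp (Real.log n * -c) := Real.rpow_def_of_pos hn0 _
    have h1 : ((n : ℝ) ^ (-c)) ^ 2 ≤ τ ^ 2 := by
      have := (Real.rpow_pos_of_pos hn0 (-c)).le
      gcongr
    have h2 : ((n : ℝ) ^ (-c)) ^ 2 = (Real.exp (2 * c * Real.log n))⁻¹ := by
      rw [h0, ← Real.exp_nat_mul, ← Real.exp_neg]; congr 1; push_cast; ring
    rw [h2] at h1
    have h3 : 0 < Real.exp (2 * c * Real.log n) := Real.exp_pos _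
    have h4 : 1 / τ ^ 2 ≤ Real.exp (2 * c * Real.log n) := by
      rw [div_le_iff₀ (by positivity)]
      calc (1 : ℝ) = Real.exp (2 * c * Real.log n) * (Real.exp (2 * c * Real.log n))⁻¹ := by
            field_simp
        _ ≤ Real.exp (2 * c * Real.log n) * τ ^ 2 := by gcongr
    refine le_trans h4 (Real.exp_le_exp.2 ?_)
    gcongr
  have hL0 : 0 ≤ Real.log Λ := Real.log_nonneg hΛ
  have hΛq : Λ ^ q ≤ Real.exp (Real.log Λ * N) := by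
    rw [← Real.rpow_natCast, Real.rpow_def_of_pos (by linarith)]
    apply Real.exp_le_exp.2
    gcongr
  have hexp : (n : ℝ) * ((n : ℝ) ^ (-(e / 8))) ^ 2 = N * (n : ℝ) ^ (3 * e / 4) := by
    rw [hN, ← Real.rpow_add hn0]
    have h1 : ((n : ℝ) ^ (-(e / 8))) ^ 2 = (n : ℝ) ^ (-(e / 4)) := by
      rw [← Real.rpow_natCast, ← Real.rpow_mul hn0.le]
      congr 1
      push_cast
      ring
    rw [h1]
    nth_rewrite 1 [← Real.rpow_one (n : ℝ)]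
    rw [← Real.rpow_add hn0]
    congr 1
    ring
  rw [hexp] at hf
  have key : 16 * (T : ℝ) ^ 2 * (64 / τ ^ 2 * Λ ^ q * f / 2 ^ n) / ((2 : ℝ) ^ (-N)) ^ 2 =
      1024 * (T : ℝ) ^ 2 * (1 / τ ^ 2) * Λ ^ q * (f / 2 ^ n) *
        Real.exp (2 * (Real.log 2 * N)) := by
    have h2 : ((2 : ℝ) ^ (-N)) ^ 2 = (Real.exp (2 * (Real.log 2 * N)))⁻¹ := by
      rw [two_rpow, ← Real.exp_nat_mul, ← Real.exp_neg]; congr 1; push_cast; ring
    rw [h2]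
    field_simp
    ring
  have hf' : f / 2 ^ n ≤ 2 * Real.exp (-(N * (n : ℝ) ^ (3 * e / 4) / 2)) := by
    rw [div_le_iff₀ (by positivity)]
    linarith
  have hf0' : 0 ≤ f / 2 ^ n := by positivity
  rw [key]
  have h1 : 1024 * (T : ℝ) ^ 2 * (1 / τ ^ 2) * Λ ^ q * (f / 2 ^ n) *
        Real.exp (2 * (Real.log 2 * N)) ≤
      1024 * Real.exp (2 * (Real.log 2 * N)) * Real.exp (2 * c * (N / (1 - e))) *
        Real.exp (Real.log Λ * N) * (2 * Real.exp (-(N * (n : ℝ) ^ (3 * e / 4) / 2))) *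
        Real.exp (2 * (Real.log 2 * N)) := by
    have : 0 ≤ Λ := by linarith
    gcongr
  refine le_trans h1 ?_
  have h2 : 1024 * Real.exp (2 * (Real.log 2 * N)) * Real.exp (2 * c * (N / (1 - e))) *
        Real.exp (Real.log Λ * N) * (2 * Real.exp (-(N * (n : ℝ) ^ (3 * e / 4) / 2))) *
        Real.exp (2 * (Real.log 2 * N)) =
      2048 * Real.exp (2 * (Real.log 2 * N) + 2 * c * (N / (1 - e)) + Real.log Λ * N +
        -(N * (n : ℝ) ^ (3 * e / 4) / 2) + 2 * (Real.log 2 * N)) := by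
    simp only [Real.exp_add]; ring
  rw [h2, two_rpow]
  have h3 : 2 * (Real.log 2 * N) + 2 * c * (N / (1 - e)) + Real.log Λ * N +
        -(N * (n : ℝ) ^ (3 * e / 4) / 2) + 2 * (Real.log 2 * N) ≤
      Real.log 2 * -N + -9 := by
    have h4 : N * (2 * (9 + 2 * c / (1 - e) + Real.log Λ + 4)) ≤ N * (n : ℝ) ^ (3 * e / 4) :=
      mul_le_mul_of_nonneg_left hn (by linarith)
    have h5 : 2 * c * (N / (1 - e)) = N * (2 * c / (1 - e)) := by ring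
    have h7 : Real.log 2 * N ≤ 0.6932 * N := mul_le_mul_of_nonneg_right hl1.le (by linarith)
    rw [h5]
    nlinarith
  have h4 : Real.exp (-9) ≤ 1 / 6144 := by
    have h5 : (2.7182818283 : ℝ) < Real.exp 1 := Real.exp_one_gt_d9
    have h6 : Real.exp 9 = Real.exp 1 ^ 9 := by
      rw [← Real.exp_nat_mul]
      norm_num
    have h7 : (6144 : ℝ) ≤ Real.exp 9 := by
      rw [h6]
      calc (6144 : ℝ) ≤ 2.7182818283 ^ 9 := by norm_num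
        _ ≤ Real.exp 1 ^ 9 := by gcongr
    rw [Real.exp_neg, ← one_div]
    exact one_div_le_one_div_of_le (by norm_num) h7
  calc 2048 * Real.exp (2 * (Real.log 2 * N) + 2 * c * (N / (1 - e)) + Real.log Λ * N +
        -(N * (n : ℝ) ^ (3 * e / 4) / 2) + 2 * (Real.log 2 * N))
      ≤ 2048 * Real.exp (Real.log 2 * -N + -9) := by
        gcongr
    _ = 2048 * (Real.exp (Real.log 2 * -N) * Real.exp (-9)) := by
        rw [Real.exp_add]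
    _ ≤ 2048 * (Real.exp (Real.log 2 * -N) * (1 / 6144)) := by gcongr
    _ = Real.exp (Real.log 2 * -N) / 3 := by ring

private theorem part3b {N τ : ℝ} {n k q m T : ℕ} (hN0 : 0 ≤ N) (hNn : N ≤ n)
    (hn : 276480 ≤ n) (hτ0 : 0 < τ) (hτ1 : τ ≤ 1)
    (hm : 2 ^ k * n ^ 2 * (q + 1) ^ 4 / τ ^ 4 ≤ (m : ℝ)) (hT : (T : ℝ) ≤ 2 ^ N) :
    16 * (T : ℝ) ^ 2 * (2 * Real.exp (-(τ ^ 2 * m / (27648 * (q + 1) ^ 4)))) /
      ((2 : ℝ) ^ (-N)) ^ 2 ≤ (2 : ℝ) ^ (-N) / 3 := by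
  have hl1 : Real.log 2 < 0.6932 := by linarith [Real.log_two_lt_d9]
  have hl0 : 0.6931 < Real.log 2 := by linarith [Real.log_two_gt_d9]
  have hnr : (276480 : ℝ) ≤ n := by exact_mod_cast hn
  have hn0 : (0 : ℝ) ≤ n := Nat.cast_nonneg n
  have hT2 : (T : ℝ) ^ 2 ≤ Real.exp (2 * (Real.log 2 * N)) := by
    have h1 : (T : ℝ) ^ 2 ≤ ((2 : ℝ) ^ N) ^ 2 := by gcongr
    refine le_trans h1 (le_of_eq ?_)
    rw [two_rpow, ← Real.exp_nat_mul]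
    congr 1
  have hx : (n : ℝ) ^ 2 / 27648 ≤ τ ^ 2 * m / (27648 * (q + 1) ^ 4) := by
    have h1 : τ ^ 2 * (2 ^ k * n ^ 2 * (q + 1) ^ 4 / τ ^ 4) / (27648 * (q + 1) ^ 4) ≤
        τ ^ 2 * (m : ℝ) / (27648 * (q + 1) ^ 4) := by gcongr
    refine le_trans ?_ h1
    have h2 : τ ^ 2 * (2 ^ k * n ^ 2 * (q + 1) ^ 4 / τ ^ 4) / (27648 * (q + 1) ^ 4) =
        (n : ℝ) ^ 2 / 27648 * (2 ^ k / τ ^ 2) := by
      field_simp
    rw [h2]
    have h3 : (1 : ℝ) ≤ 2 ^ k / τ ^ 2 := by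
      rw [le_div_iff₀ (by positivity)]
      have h4 : (1 : ℝ) ≤ 2 ^ k := one_le_pow₀ (by norm_num)
      have h5 : τ ^ 2 ≤ 1 := pow_le_one₀ hτ0.le hτ1
      linarith
    have h6 : (0 : ℝ) ≤ (n : ℝ) ^ 2 / 27648 := by positivity
    nlinarith
  have h2 : ((2 : ℝ) ^ (-N)) ^ 2 = (Real.exp (2 * (Real.log 2 * N)))⁻¹ := by
    rw [two_rpow, ← Real.exp_nat_mul, ← Real.exp_neg]; congr 1; push_cast; ring
  have key : 16 * (T : ℝ) ^ 2 * (2 * Real.exp (-(τ ^ 2 * m / (27648 * (q + 1) ^ 4)))) /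
      ((2 : ℝ) ^ (-N)) ^ 2 = 32 * (T : ℝ) ^ 2 *
        Real.exp (-(τ ^ 2 * m / (27648 * (q + 1) ^ 4))) *
          Real.exp (2 * (Real.log 2 * N)) := by
    rw [h2]
    field_simp
    ring
  rw [key, two_rpow]
  have h3 : 32 * (T : ℝ) ^ 2 * Real.exp (-(τ ^ 2 * m / (27648 * (q + 1) ^ 4))) *
        Real.exp (2 * (Real.log 2 * N)) ≤
      32 * Real.exp (2 * (Real.log 2 * N)) * Real.exp (-((n : ℝ) ^ 2 / 27648)) *
        Real.exp (2 * (Real.log 2 * N)) := by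
    gcongr
  refine le_trans h3 ?_
  have h4 : 32 * Real.exp (2 * (Real.log 2 * N)) * Real.exp (-((n : ℝ) ^ 2 / 27648)) *
        Real.exp (2 * (Real.log 2 * N)) =
      32 * Real.exp (2 * (Real.log 2 * N) + -((n : ℝ) ^ 2 / 27648) +
        2 * (Real.log 2 * N)) := by
    simp only [Real.exp_add]; ring
  rw [h4]
  have h5 : 2 * (Real.log 2 * N) + -((n : ℝ) ^ 2 / 27648) + 2 * (Real.log 2 * N) ≤
      Real.log 2 * -N + -n := by
    have h8 : Real.log 2 * N ≤ 0.6932 * N := mul_le_mul_of_nonneg_right hl1.le hN0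
    have h10 : 10 * (n : ℝ) ≤ (n : ℝ) ^ 2 / 27648 := by
      rw [le_div_iff₀ (by norm_num)]; nlinarith
    linarith
  have h6 : Real.exp (-(n : ℝ)) ≤ 1 / 96 := by
    rw [Real.exp_neg, ← one_div]
    apply one_div_le_one_div_of_le (by norm_num)
    have := Real.add_one_le_exp (n : ℝ)
    linarith
  calc 32 * Real.exp (2 * (Real.log 2 * N) + -((n : ℝ) ^ 2 / 27648) + 2 * (Real.log 2 * N))
      ≤ 32 * Real.exp (Real.log 2 * -N + -n) := by gcongr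
    _ = 32 * (Real.exp (Real.log 2 * -N) * Real.exp (-(n : ℝ))) := by rw [Real.exp_add]
    _ ≤ 32 * (Real.exp (Real.log 2 * -N) * (1 / 96)) := by gcongr
    _ = Real.exp (Real.log 2 * -N) / 3 := by ring

private theorem part3c {N τ : ℝ} {n k q m : ℕ} (hN0 : 0 ≤ N) (hNn : N ≤ n) (hn : 3 ≤ n)
    (hτ0 : 0 < τ) (hτ1 : τ ≤ 1)
    (hm : 2 ^ k * n ^ 2 * (q + 1) ^ 4 / τ ^ 4 ≤ (m : ℝ)) :
    2 ^ n * Real.exp (-(m / 2 ^ k)) ≤ (2 : ℝ) ^ (-N) / 3 := by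
  have hl1 : Real.log 2 < 0.6932 := by linarith [Real.log_two_lt_d9]
  have hl0 : 0.6931 < Real.log 2 := by linarith [Real.log_two_gt_d9]
  have hnr : (3 : ℝ) ≤ n := by exact_mod_cast hn
  have hn0 : (0 : ℝ) ≤ n := Nat.cast_nonneg n
  have hx : (n : ℝ) ^ 2 ≤ m / 2 ^ k := by
    rw [le_div_iff₀ (by positivity)]
    refine le_trans ?_ hm
    rw [le_div_iff₀ (by positivity)]
    have h1 : τ ^ 4 ≤ 1 := pow_le_one₀ hτ0.le hτ1
    have h2 : (1 : ℝ) ≤ (q + 1) ^ 4 := one_le_pow₀ (by linarith [Nat.cast_nonneg (α := ℝ) q])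
    calc (n : ℝ) ^ 2 * 2 ^ k * τ ^ 4 ≤ (n : ℝ) ^ 2 * 2 ^ k * 1 := by gcongr
      _ ≤ (n : ℝ) ^ 2 * 2 ^ k * (q + 1) ^ 4 := by gcongr
      _ = 2 ^ k * (n : ℝ) ^ 2 * (q + 1) ^ 4 := by ring
  rw [two_pow, two_rpow]
  have h1 : Real.exp (Real.log 2 * n) * Real.exp (-(m / 2 ^ k : ℝ)) ≤
      Real.exp (Real.log 2 * n) * Real.exp (-((n : ℝ) ^ 2)) := by gcongr
  refine le_trans h1 ?_
  rw [← Real.exp_add]
  have h5 : Real.log 2 * n + -((n : ℝ) ^ 2) ≤ Real.log 2 * -N + -n := by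
    have h8 : Real.log 2 * N ≤ 0.6932 * N := mul_le_mul_of_nonneg_right hl1.le hN0
    have h9 : Real.log 2 * n ≤ 0.6932 * n := mul_le_mul_of_nonneg_right hl1.le hn0
    nlinarith
  have h6 : Real.exp (-(n : ℝ)) ≤ 1 / 3 := by
    rw [Real.exp_neg, ← one_div]
    apply one_div_le_one_div_of_le (by norm_num)
    have := Real.add_one_le_exp (n : ℝ)
    linarith
  calc Real.exp (Real.log 2 * n + -((n : ℝ) ^ 2))
      ≤ Real.exp (Real.log 2 * -N + -n) := Real.exp_le_exp.2 h5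
    _ = Real.exp (Real.log 2 * -N) * Real.exp (-(n : ℝ)) := by rw [Real.exp_add]
    _ ≤ Real.exp (Real.log 2 * -N) * (1 / 3) := by gcongr
    _ = Real.exp (Real.log 2 * -N) / 3 := by ring

theorem pf_PAB (hBAL : T_BAL) : T_PAB := by
  intro e c he he1 hc
  obtain ⟨r₀, hr₀⟩ : ∃ r₀ : ℕ, (2 * c + 4) + (2 * c + 2) / (e / 8) ≤ r₀ := exists_nat_ge _
  refine ⟨r₀, fun r hr Λ hΛ => ?_⟩
  have hrr : (r₀ : ℝ) ≤ r := by exact_mod_cast hr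
  have hdiv : 0 ≤ (2 * c + 2) / (e / 8) := by positivity
  have hr1 : 2 * c + 4 ≤ (r : ℝ) := by linarith
  have hr2 : 2 * c + 2 ≤ e / 8 * (r : ℝ) := by
    have h1 : (2 * c + 2) / (e / 8) ≤ r := by linarith
    rw [div_le_iff₀ (by positivity)] at h1
    linarith
  obtain ⟨X, hX⟩ : ∃ X, X = 2 * (9 + 2 * c / (1 - e) + Real.log Λ + 4) := ⟨_, rfl⟩
  have hX0 : 0 ≤ X := by
    have h1 := Real.log_nonneg hΛ
    have h2 : 0 ≤ 2 * c / (1 - e) := div_nonneg (by linarith) (by linarith)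
    rw [hX]
    linarith
  obtain ⟨n₁, hn₁⟩ : ∃ n₁ : ℕ, 9216 * Λ + X ^ (4 / (3 * e)) ≤ n₁ := exists_nat_ge _
  have hXp : 0 ≤ X ^ (4 / (3 * e)) := Real.rpow_nonneg hX0 _
  refine ⟨n₁ + 276480, fun n hn => ?_⟩
  have hnr : (n₁ : ℝ) + 276480 ≤ n := by exact_mod_cast hn
  have hn1 : (1 : ℝ) ≤ n := by
    have : (0 : ℝ) ≤ n₁ := Nat.cast_nonneg _
    linarith
  have hn0 : (0 : ℝ) < n := by linarith
  refine ⟨(n : ℝ) ^ (-(e / 8)), Real.rpow_pos_of_pos hn0 _, ?_⟩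
  intro k q m τ T hrk hq hτ hτ1 hm hT
  have hτ0 : 0 < τ := lt_of_lt_of_le (Real.rpow_pos_of_pos hn0 _) hτ
  obtain ⟨N, hN⟩ : ∃ N, N = (n : ℝ) ^ (1 - e) := ⟨_, rfl⟩
  rw [← hN] at hq hT ⊢
  have hN0 : 0 ≤ N := by
    rw [hN]
    exact Real.rpow_nonneg hn0.le _
  have hNn : N ≤ n := by
    rw [hN]
    calc (n : ℝ) ^ (1 - e) ≤ (n : ℝ) ^ (1 : ℝ) :=
          Real.rpow_le_rpow_of_exponent_le hn1 (by linarith)
      _ = n := Real.rpow_one _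
  have hXn : X ≤ (n : ℝ) ^ (3 * e / 4) := by
    have h1 : X ^ (4 / (3 * e)) ≤ n := by linarith
    have h2 : (X ^ (4 / (3 * e))) ^ (3 * e / 4) ≤ (n : ℝ) ^ (3 * e / 4) :=
      Real.rpow_le_rpow hXp h1 (by linarith)
    rw [← Real.rpow_mul hX0] at h2
    have h3 : 4 / (3 * e) * (3 * e / 4) = 1 := by
      field_simp
    rw [h3, Real.rpow_one] at h2
    exact h2
  refine ⟨?_, ?_, ?_⟩
  · exact part1 (c := c) hΛ (by omega) (by linarith) hr2 hτ (le_trans hq hNn)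
  · exact part2 (c := c) (r := r) hΛ (by omega) (by linarith) hr1 hrk hτ0 hτ1 hτ
      (le_trans hq hNn) hm
  · have hA := part3a (f := (far n ((n : ℝ) ^ (-(e / 8))) : ℝ)) hΛ he he1 hc (by omega) hN
      (by rw [← hX]; exact hXn) hq hτ0 hτ hT (Nat.cast_nonneg _)
      (hBAL.1 n _ (by omega) (Real.rpow_pos_of_pos hn0 _))
    have hB := part3b hN0 hNn (by omega) hτ0 hτ1 hm hT
    have hC := part3c hN0 hNn (by omega) hτ0 hτ1 hm
    have hsplit : 16 * (T : ℝ) ^ 2 * (64 / τ ^ 2 * Λ ^ q * far n ((n : ℝ) ^ (-(e / 8))) / 2 ^ n +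
        2 * Real.exp (-(τ ^ 2 * m / (27648 * (q + 1) ^ 4)))) / ((2 : ℝ) ^ (-N)) ^ 2 =
        16 * (T : ℝ) ^ 2 * (64 / τ ^ 2 * Λ ^ q * far n ((n : ℝ) ^ (-(e / 8))) / 2 ^ n) /
          ((2 : ℝ) ^ (-N)) ^ 2 +
        16 * (T : ℝ) ^ 2 * (2 * Real.exp (-(τ ^ 2 * m / (27648 * (q + 1) ^ 4)))) /
          ((2 : ℝ) ^ (-N)) ^ 2 := by
      ring
    rw [hsplit]
    linarith

end Pool.Agent.H4.SQ.PAB
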